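import Pool.Agent.H.MP_f6153b_al.B

namespace Pool.Agent.Results.MP_e72135_al.No

open Pool.Agent.H.MP_f6153b_al

theorem result :
    (∃ (G H : Type) (_ : AddCommGroup G) (_ : AddCommGroup H) (_ : TopologicalSpace G)
      (_ : TopologicalSpace H), ContinuousAdd G ∧ ContinuousAdd H ∧ T0Space G ∧ T0Space H ∧
        CountablyCompact G ∧ CountablyCompact H ∧ ¬ TwoPseudocompact (G × H)) ∧
    ∀ (ι : Type) [Nontrivial ι], ∃ (G : ι → Type) (_ : ∀ i, AddCommGroup (G i))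
      (_ : ∀ i, TopologicalSpace (G i)),
        (∀ i, ContinuousAdd (G i) ∧ T0Space (G i) ∧ CountablyCompact (G i)) ∧
          ¬ TwoPseudocompact (∀ i, G i) := by
  refine ⟨?_, fun ι _ => ?_⟩
  · obtain ⟨s, t, hs, ht, h, -⟩ := main
    exact ⟨G, G, inferInstance, inferInstance, s, t, hs.1, ht.1, hs.2.1, ht.2.1, hs.2.2, ht.2.2, h⟩
  · obtain ⟨t, ht, h, -⟩ := family ι
    exact ⟨fun _ => G, inferInstance, t, ht, h⟩

end Pool.Agent.Results.MP_e72135_al.No
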